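import Pool.Agent.Helper45.LGB.St2
import Pool.Agent.Helper63.RB.M_LCC

/-!
# Project LGB, module GRN: the letters of a group as operators
-/

set_option autoImplicit false

namespace Pool.Agent.Helper86.LGB

open Pool.Agent.Helper45.LGB Pool.Agent.Helper83.RB

open scoped commutatorElement

private theorem cb_add_left {A : Type} [Ring A] (a a' b : A) : cb (a + a') b = cb a b + cb a' b := by
  unfold cb; noncomm_ring

private theorem cb_add_right {A : Type} [Ring A] (a b b' : A) : cb a (b + b') = cb a b + cb a b' := by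
  unfold cb; noncomm_ring

private theorem cb_neg_left {A : Type} [Ring A] (a b : A) : cb (-a) b = -cb a b := by
  unfold cb; noncomm_ring

private theorem cb_neg_right {A : Type} [Ring A] (a b : A) : cb a (-b) = -cb a b := by
  unfold cb; noncomm_ring

private theorem cb_zero_left {A : Type} [Ring A] (b : A) : cb 0 b = 0 := by
  unfold cb; simp

private theorem cb_zero_right {A : Type} [Ring A] (a : A) : cb a 0 = 0 := by
  unfold cb; simp

private theorem cb_closure {A : Type} [Ring A] (S : Set A)
    (h : ∀ a ∈ S, ∀ b ∈ S, cb a b ∈ AddSubgroup.closure S) {a b : A}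
    (ha : a ∈ AddSubgroup.closure S) (hb : b ∈ AddSubgroup.closure S) :
    cb a b ∈ AddSubgroup.closure S := by
  have h1 : ∀ a ∈ S, ∀ b ∈ AddSubgroup.closure S, cb a b ∈ AddSubgroup.closure S := by
    intro a ha b hb
    induction hb using AddSubgroup.closure_induction with
    | mem x hx => exact h a ha x hx
    | zero => rw [cb_zero_right]; exact zero_mem _
    | add x y _ _ hx hy => rw [cb_add_right]; exact add_mem hx hy
    | neg x _ hx => rw [cb_neg_right]; exact neg_mem hx
  induction ha using AddSubgroup.closure_induction with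
  | mem x hx => exact h1 x hx b hb
  | zero => rw [cb_zero_left]; exact zero_mem _
  | add x y _ _ hx hy => rw [cb_add_left]; exact add_mem hx hy
  | neg x _ hx => rw [cb_neg_left]; exact neg_mem hx

/-- GRN. -/
theorem hGRN (hGRV : StGRV) (hGRD : StGRD) (hMLS : StMLS) : StGRN := by
  intro p _ G _ hG X
  obtain ⟨V, iV, iM, e, D, h1, h2, h3, h4⟩ := hGRV p G hG
  obtain ⟨_, d2, d3, d4⟩ := hGRD p G hG V e D h1 h2 h3 h4
  have hact : ∀ (u : List ↥X) (k : ℕ) (a : G), a ∈ (⊤ : Subgroup G).lowerCentralSeries k →
      act (fun y : ↥X => D 0 (y : G)) u (e k a) = e (k + u.length) (ic a (u.map fun y => (y : G))) ∧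
        ic a (u.map fun y => (y : G)) ∈ (⊤ : Subgroup G).lowerCentralSeries (k + u.length) := by
    intro u
    induction u with
    | nil => exact fun k a ha => ⟨rfl, ha⟩
    | cons y u ih =>
      intro k a ha
      have hy : (y : G) ∈ (⊤ : Subgroup G).lowerCentralSeries 0 := Subgroup.mem_top _
      have hc : ⁅a, (y : G)⁆ ∈ (⊤ : Subgroup G).lowerCentralSeries (k + 1) := by
        rw [Subgroup.lowerCentralSeries_succ]
        exact Subgroup.commutator_mem_commutator ha (Subgroup.mem_top _)
      have h5 := ih (k + 1) ⁅a, (y : G)⁆ hc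
      have h6 := h3 k 0 a ha (y : G) hy
      have e1 : k + 1 + u.length = k + (u.length + 1) := by omega
      rw [e1] at h5
      refine ⟨?_, h5.2⟩
      rw [List.length_cons]
      refine Eq.trans ?_ h5.1
      show act (fun y : ↥X => D 0 (y : G)) u (D 0 (y : G) (e k a)) = _
      rw [h6]
  refine ⟨V, iV, iM, fun y => D 0 (y : G), e 0, ?_, ?_, ?_⟩
  · intro i j hij
    have hc : (i : G) * (j : G) = (j : G) * (i : G) := not_not.mp hij
    exact d4 _ _ hc
  · intro l hl w _
    let S : Set (Module.End (ZMod p) V) :=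
      {F | ∃ w : ℕ, ∃ g ∈ (⊤ : Subgroup G).lowerCentralSeries w, F = D w g}
    have hS : ∀ l : Fin (p - 1) → Module.End (ZMod p) V, (∀ i, l i ∈ S) →
        ∑ σ : Equiv.Perm (Fin (p - 1)), (List.ofFn fun i => l (σ i)).prod = 0 := by
      intro l hl
      choose ω g hg hlg using hl
      have h5 := d3 ω g hg
      have h6 : l = fun i => D (ω i) (g i) := funext hlg
      rw [h6]
      exact h5
    have hcl : ∀ a : Module.End (ZMod p) V,
        Lam (fun y : ↥X => D 0 (y : G)) Set.univ a → a ∈ AddSubgroup.closure S := by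
      intro a ha
      induction ha with
      | gen y _ => exact AddSubgroup.subset_closure ⟨0, (y : G), Subgroup.mem_top _, rfl⟩
      | zero => exact zero_mem _
      | add a b _ _ iha ihb => exact add_mem iha ihb
      | smul c a _ iha =>
        have h7 : c • a = c.val • a := by
          rw [← Nat.cast_smul_eq_nsmul (ZMod p), ZMod.natCast_zmod_val]
        rw [h7]
        exact nsmul_mem iha _
      | lie a b _ _ iha ihb =>
        refine cb_closure S ?_ iha ihb
        rintro _ ⟨w, g, hg, rfl⟩ _ ⟨w', h, hh, rfl⟩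
        rw [d2 w w' g hg h hh]
        refine AddSubgroup.subset_closure ⟨w + w' + 1, ⁅h, g⁆, ?_, rfl⟩
        have h8 := Pool.Agent.Helper63.RB.hLCC G w' w (Subgroup.commutator_mem_commutator hh hg)
        rwa [add_comm w' w] at h8
    have h9 := hMLS (Module.End (ZMod p) V) (p - 1) S hS l (fun i => hcl _ (hl i))
    rw [h9]
    exact Submodule.zero_mem _
  · intro x u hu
    have h5 := hact u 0 x (Subgroup.mem_top _)
    rw [h5.1] at hu
    have h6 := (h2 _ _ h5.2).1 hu
    rwa [zero_add] at h6

end Pool.Agent.Helper86.LGB
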